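import Pool.Agent.Lib.MP_aa40d3_nt.CP.Final3

open Polynomial Pool.Agent.GR.CV Pool.Agent.GR.GE Pool.Agent.GR.FB Pool.Agent.GR.CP
open Pool.Agent.Lib.MP_a01f70_lc.QQ (Place)
open scoped IntermediateField

namespace Pool.Agent.Results.MP_aa40d3_nt.CoverPoints

/-- The Grothendieck-Katz conjecture, from nilpotent curvature in positive characteristic, for
irreducible systems of rank `r` with determinant of finite order on an ARBITRARY curve with a
function `f` of degree `d`, as soon as `k(r, d)` generic simple poles `p i` of the system ramify.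
Only the values `t i = f (p i)` are generic: the curve, the branch values of `f` and the other
singular points (which lie over the finite set `T` or over infinity) are arbitrary. Nilpotence is
asked only at the closed points of the component of `ι` where one `g` does not vanish (almost all
primes, when `g` is an integer). All solutions are algebraic, on every branch, for the system
itself (`ψ = ι`) and for every specialisation `ψ` of it. -/
theorem result (r d : ℕ) : ∃ k : ℕ, ∀ (R : Type) [CommRing R]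
    [Algebra.FiniteType ℤ R] (ι ψ : R →+* ℂ) (g : R) (S : Sys R r) (F : Type) [Field F]
    [Algebra ℂ F] (x y f : F) (δ : Derivation ℂ F F) (B : Matrix (Fin r) (Fin r) F)
    (Sg : Finset (Place ℂ F)) (T : Finset ℂ) (n : ℕ) (t : Fin n → ℂ) (p : Fin n → Place ℂ F)
    (E : Fin n → Matrix (Fin r) (Fin r) ℂ),
    RingHom.ker ι ≤ RingHom.ker ψ → ι g ≠ 0 → S.P.Monic → Irreducible (S.map ι).P →
    Transcendental ℂ x → ℂ⟮x, y⟯ = ⊤ → aevalAeval x y (S.map ι).P = 0 →
    Module.finrank ℂ⟮f⟯ F = d → δ f = 1 →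
    aeval x (S.map ι).D • B = δ x • (S.map ι).A.map (aevalAeval x y) →
    AlgebraicIndependent (IntermediateField.adjoin ℚ (T : Set ℂ)) t →
    (∀ c, c ∉ T → c ∉ Set.range t → Fib Sg f c 1 d) →
    (∀ i, Fib Sg f (t i) 1 (d - 1) ∧ p i ∈ Sg ∧ (p i).ord (f - algebraMap ℂ F (t i)) = 1 ∧
      Val (p i) ((f - algebraMap ℂ F (t i)) • B) (E i)) →
    (∀ q ∉ Sg, ∀ φ, At φ q → (S.map ι).Loc (φ x) (φ y)) →
    IrrF δ B → (d = 1 ∨ DetF δ B) → RamF k δ B Finset.univ p E →
    (∀ m : Ideal R, m.IsMaximal → RingHom.ker ι ≤ m → g ∉ m →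
      (S.map (Ideal.Quotient.mk m)).Tri) → (S.map ψ).AlgAll :=
  final16 r d

/-- On an irreducible fibre with `D ≠ 0` there is a full basis of algebraic solutions. -/
theorem basis (r d : ℕ) : ∃ k : ℕ, ∀ (R : Type) [CommRing R]
    [Algebra.FiniteType ℤ R] (ι ψ : R →+* ℂ) (g : R) (S : Sys R r) (F : Type) [Field F]
    [Algebra ℂ F] (x y f : F) (δ : Derivation ℂ F F) (B : Matrix (Fin r) (Fin r) F)
    (Sg : Finset (Place ℂ F)) (T : Finset ℂ) (n : ℕ) (t : Fin n → ℂ) (p : Fin n → Place ℂ F)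
    (E : Fin n → Matrix (Fin r) (Fin r) ℂ),
    RingHom.ker ι ≤ RingHom.ker ψ → ι g ≠ 0 → S.P.Monic →
    Irreducible (S.map ι).P → Irreducible (S.map ψ).P → (S.map ψ).D ≠ 0 →
    Transcendental ℂ x → ℂ⟮x, y⟯ = ⊤ → aevalAeval x y (S.map ι).P = 0 →
    Module.finrank ℂ⟮f⟯ F = d → δ f = 1 →
    aeval x (S.map ι).D • B = δ x • (S.map ι).A.map (aevalAeval x y) →
    AlgebraicIndependent (IntermediateField.adjoin ℚ (T : Set ℂ)) t →
    (∀ c, c ∉ T → c ∉ Set.range t → Fib Sg f c 1 d) →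
    (∀ i, Fib Sg f (t i) 1 (d - 1) ∧ p i ∈ Sg ∧ (p i).ord (f - algebraMap ℂ F (t i)) = 1 ∧
      Val (p i) ((f - algebraMap ℂ F (t i)) • B) (E i)) →
    (∀ q ∉ Sg, ∀ φ, At φ q → (S.map ι).Loc (φ x) (φ y)) →
    IrrF δ B → (d = 1 ∨ DetF δ B) → RamF k δ B Finset.univ p E →
    (∀ m : Ideal R, m.IsMaximal → RingHom.ker ι ≤ m → g ∉ m →
      (S.map (Ideal.Quotient.mk m)).Tri) → (S.map ψ).Alg := by
  obtain ⟨k, hk⟩ := result r d
  exact ⟨k, fun R _ _ ι ψ g S F _ _ x y f δ B Sg T n t p E h0 hg hP hI hI' hD hx hxy hy hdeg hδ hB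
    ht h2 h3 hL hIr hDe hRa hF => Pool.Agent.GR.SP.alg_of_all (hk R ι ψ g S F x y f δ B Sg T n t p E
      h0 hg hP hI hx hxy hy hdeg hδ hB ht h2 h3 hL hIr hDe hRa hF) (hP.map _) hI' hD⟩

/-- The earlier form (no singular point and no ramification at infinity, nilpotence modulo every
maximal ideal) follows. -/
theorem earlier (r d : ℕ) : ∃ k : ℕ, ∀ (R : Type) [CommRing R]
    [Algebra.FiniteType ℤ R] (ι ψ : R →+* ℂ) (S : Sys R r) (F : Type) [Field F] [Algebra ℂ F]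
    (x y f : F) (δ : Derivation ℂ F F) (B : Matrix (Fin r) (Fin r) F) (Sg : Finset (Place ℂ F))
    (n : ℕ) (t : Fin n → ℂ) (M : Finset (Fin n)) (p : Fin n → Place ℂ F)
    (E : Fin n → Matrix (Fin r) (Fin r) ℂ),
    RingHom.ker ι ≤ RingHom.ker ψ → S.P.Monic →
    Irreducible (S.map ι).P → Irreducible (S.map ψ).P → (S.map ψ).D ≠ 0 →
    Transcendental ℂ x → ℂ⟮x, y⟯ = ⊤ → aevalAeval x y (S.map ι).P = 0 →
    Module.finrank ℂ⟮f⟯ F = d → δ f = 1 →
    aeval x (S.map ι).D • B = δ x • (S.map ι).A.map (aevalAeval x y) → Function.Injective t →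
    (AlgebraicIndependent (IntermediateField.adjoin ℚ {c : ℂ | ∃ j, j ∉ M ∧ c = t j})
      fun i : M => t i) →
    Fib Sg f 0 (-1) d → (∀ c, c ∉ Set.range t → Fib Sg f c 1 d) →
    (∀ i ∈ M, Fib Sg f (t i) 1 (d - 1) ∧ p i ∈ Sg ∧ (p i).ord (f - algebraMap ℂ F (t i)) = 1 ∧
      Val (p i) ((f - algebraMap ℂ F (t i)) • B) (E i)) →
    (∀ q ∉ Sg, ∀ φ, At φ q → (S.map ι).Loc (φ x) (φ y)) →
    IrrF δ B → (d = 1 ∨ DetF δ B) → RamF k δ B M p E →
    (∀ m : Ideal R, m.IsMaximal → (S.map (Ideal.Quotient.mk m)).Tri) → (S.map ψ).Alg := by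
  classical
  obtain ⟨k, hk⟩ := basis r d
  refine ⟨k, fun R _ _ ι ψ S F _ _ x y f δ B Sg n t M p E h0 hP hI hI' hD hx hxy hy hdeg hδ hB _ hg
    _ h2 h3 hL hIr hDe hRa hF => ?_⟩
  have e : {c : ℂ | ∃ j, j ∉ M ∧ c = t j} = (Mᶜ.image t : Finset ℂ) := by
    ext c
    simp [eq_comm]
  rw [e] at hg
  refine hk R ι ψ 1 S F x y f δ B Sg (Mᶜ.image t) M.card (fun i => t (M.equivFin.symm i))
    (fun i => p (M.equivFin.symm i)) (fun i => E (M.equivFin.symm i)) h0 (by simp) hP hI hI' hD hx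
    hxy hy hdeg hδ hB (hg.comp _ M.equivFin.symm.injective) (fun c c1 c2 => h2 c ?_)
    (fun i => h3 _ (M.equivFin.symm i).2) hL hIr hDe (fun W w1 w2 => ?_) fun m hm _ _ => hF m hm
  · rintro ⟨j, rfl⟩
    by_cases hj : j ∈ M
    · exact c2 ⟨M.equivFin ⟨j, hj⟩, by simp⟩
    · exact c1 (Finset.mem_image_of_mem _ (Finset.mem_compl.2 hj))
  · obtain ⟨M', m1, m2, m3⟩ := hRa W w1 w2
    refine ⟨M'.attach.image fun j : M' => M.equivFin ⟨j.1, m1 j.2⟩, Finset.subset_univ _, ?_,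
      fun i hi => ?_⟩
    · rw [Finset.card_image_of_injective, Finset.card_attach]
      · exact m2
      · exact fun a b h => Subtype.ext (congrArg (fun z : M => z.1) (M.equivFin.injective h))
    · obtain ⟨j, -, rfl⟩ := Finset.mem_image.1 hi
      simpa using m3 j.1 j.2

end Pool.Agent.Results.MP_aa40d3_nt.CoverPoints
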