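import Pool.Agent.Lib.MP_aa40d3_nt.FV.All

open Polynomial Pool.Agent.GR.CV Pool.Agent.GR.GE Pool.Agent.GR.FB
open Pool.Agent.Lib.MP_a01f70_lc.QQ (Place)
open scoped IntermediateField

namespace Pool.Agent.Results.MP_aa40d3_nt.FreeBranch

/-- The Grothendieck-Katz conjecture for all systems of rank `r` on a curve with punctures `Σ` that
has a function `f` of degree `d ≥ 3` such that `ℂ(f)` is a maximal subfield (not needed if every
fibre has `d - 3` ordinary points), two fibres are arbitrary, every other fibre has an ordinary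
point (unramified, outside `Σ`) and is otherwise arbitrary (ramification, punctures), there are at
least `2 d + k(r)` simple branch values, and ONE of them, `c₀`, is transcendental over the field
generated by the other special values. Fundamental matrices in positive characteristic are asked
only at the closed points of the component of `ι` where one `g` does not vanish (almost all primes,
when `g` is an integer). All solutions on all branches are algebraic, for the system itself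
(`ψ = ι`) and for every specialisation `ψ`. -/
theorem result (r : ℕ) : ∃ k : ℕ, ∀ (R : Type) [CommRing R]
    [Algebra.FiniteType ℤ R] (ι ψ : R →+* ℂ) (g : R) (S : Sys R r) (F : Type) [Field F]
    [Algebra ℂ F] (x y f : F) (Sg : Finset (Place ℂ F)) (d : ℕ) (B : Finset ℂ) (c₀ c₁ c₂ : ℂ),
    RingHom.ker ι ≤ RingHom.ker ψ → ι g ≠ 0 → S.P.Monic → Irreducible (S.map ι).P →
    Transcendental ℂ x → ℂ⟮x, y⟯ = ⊤ → aevalAeval x y (S.map ι).P = 0 →
    Module.finrank ℂ⟮f⟯ F = d → 3 ≤ d → (IsCoatom ℂ⟮f⟯ ∨ ∀ c, Fib Sg f c 1 (d - 3)) →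
    Fib Sg f 0 (-1) d → (∀ c, c ≠ c₁ → c ≠ c₂ → Fib Sg f c 1 1) →
    (∀ c ∈ B, Fib Sg f c 2 1 ∧ Fib Sg f c 1 (d - 2)) → 2 * d + k ≤ B.card → c₀ ∈ B →
    Transcendental (IntermediateField.adjoin ℚ {c | c ≠ c₀ ∧ ¬ Fib Sg f c 1 d}) c₀ →
    (∀ p ∉ Sg, ∀ φ, At φ p → (S.map ι).Loc (φ x) (φ y)) →
    (∀ m : Ideal R, m.IsMaximal → RingHom.ker ι ≤ m → g ∉ m →
      (S.map (Ideal.Quotient.mk m)).Fund) → (S.map ψ).AlgAll :=
  Pool.Agent.GR.FV.final17 r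

/-- On an irreducible fibre there is a fundamental matrix of algebraic functions on a disc. -/
theorem disc (r : ℕ) : ∃ k : ℕ, ∀ (R : Type) [CommRing R] [Algebra.FiniteType ℤ R]
    (ι ψ : R →+* ℂ) (S : Sys R r) (F : Type) [Field F] [Algebra ℂ F] (x y f : F)
    (Sg : Finset (Place ℂ F)) (d : ℕ) (B : Finset ℂ) (c₀ c₁ c₂ : ℂ),
    RingHom.ker ι ≤ RingHom.ker ψ → S.P.Monic →
    Irreducible (S.map ι).P → Irreducible (S.map ψ).P → (S.map ψ).D ≠ 0 →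
    Transcendental ℂ x → ℂ⟮x, y⟯ = ⊤ → aevalAeval x y (S.map ι).P = 0 →
    Module.finrank ℂ⟮f⟯ F = d → 3 ≤ d → (IsCoatom ℂ⟮f⟯ ∨ ∀ c, Fib Sg f c 1 (d - 3)) →
    Fib Sg f 0 (-1) d → (∀ c, c ≠ c₁ → c ≠ c₂ → Fib Sg f c 1 1) →
    (∀ c ∈ B, Fib Sg f c 2 1 ∧ Fib Sg f c 1 (d - 2)) → 2 * d + k ≤ B.card → c₀ ∈ B →
    Transcendental (IntermediateField.adjoin ℚ {c | c ≠ c₀ ∧ ¬ Fib Sg f c 1 d}) c₀ →
    (∀ p ∉ Sg, ∀ φ, At φ p → (S.map ι).Loc (φ x) (φ y)) →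
    (∀ m : Ideal R, m.IsMaximal → (S.map (Ideal.Quotient.mk m)).Fund) → (S.map ψ).Alg :=
  (result r).imp fun _ hk R _ _ ι ψ S F _ _ x y f Sg d B c₀ c₁ c₂ h0 hP hI hI' hD hx hxy hy h1 h2 h3
    h4 h5 h6 h7 h8 h9 hL hF => Pool.Agent.GR.SP.alg_of_all (hk R ι ψ 1 S F x y f Sg d B c₀ c₁ c₂ h0
      (by rw [map_one]; exact one_ne_zero) hP hI hx hxy hy h1 h2 h3 h4 h5 h6 h7 h8 h9 hL
      fun m hm _ _ => hF m hm) (hP.map _) hI' hD

/-- Simple coverings (one branch point or one puncture in a special fibre) of genus `≥ g₀(r)`. -/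
theorem simple_covers (r : ℕ) : ∃ g₀ : ℕ, ∀ (R : Type) [CommRing R]
    [Algebra.FiniteType ℤ R] (ι ψ : R →+* ℂ) (S : Sys R r) (F : Type) [Field F] [Algebra ℂ F]
    (x y f : F) (Sg : Finset (Place ℂ F)) (d : ℕ) (c₀ : ℂ), RingHom.ker ι ≤ RingHom.ker ψ →
    S.P.Monic → Irreducible (S.map ι).P → Irreducible (S.map ψ).P → (S.map ψ).D ≠ 0 →
    Transcendental ℂ x → ℂ⟮x, y⟯ = ⊤ → aevalAeval x y (S.map ι).P = 0 → g₀ ≤ genus F →
    Module.finrank ℂ⟮f⟯ F = d → 3 ≤ d → Fib Sg f 0 (-1) d →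
    (∀ c, Fib Sg f c 1 (d - 1) ∨ (Fib Sg f c 2 1 ∧ Fib Sg f c 1 (d - 2))) → Fib Sg f c₀ 2 1 →
    Transcendental (IntermediateField.adjoin ℚ {c | c ≠ c₀ ∧ ¬ Fib Sg f c 1 d}) c₀ →
    (∀ p ∉ Sg, ∀ φ, At φ p → (S.map ι).Loc (φ x) (φ y)) →
    (∀ m : Ideal R, m.IsMaximal → (S.map (Ideal.Quotient.mk m)).Fund) → (S.map ψ).Alg := by
  obtain ⟨k, hk⟩ := disc r
  refine ⟨k + 1, fun R _ _ ι ψ S F _ _ x y f Sg d c₀ h0 hP hI hI' hD hx hxy hy hg hd hd' h1 h2 h3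
    h4 => ?_⟩
  have : IsFF F := isFF_of_gen hx hxy hI.ne_zero hy
  obtain ⟨h5, B, h6, h7, h8⟩ := Pool.Agent.GR.FS.of_simple (by omega) hd h1 h2 h3 hg
  exact hk R ι ψ S F x y f Sg d B c₀ 0 0 h0 hP hI hI' hD hx hxy hy hd hd'
    (Or.inr fun c => Pool.Agent.GR.FK.fib_mono (h5 c) (by omega)) h1
    (fun c _ _ => Pool.Agent.GR.FK.fib_mono (h5 c) (by omega)) h8 h7 h6 h4

/-- The case in which all points are free: all systems of rank `r` on the generic curve of genus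
`g ≥ g₀(r)` with `n` generic punctures, and on the generic curve with a function of degree
`≥ 3`. The covering comes from `exists_cov`. -/
theorem generic_curves (r : ℕ) : ∃ g₀ : ℕ, ∀ (R : Type) [CommRing R]
    [Algebra.FiniteType ℤ R] (ι ψ : R →+* ℂ) (S : Sys R r) (F : Type) [Field F] [Algebra ℂ F]
    (x y z : F) (Sg : Finset (Place ℂ F)), RingHom.ker ι ≤ RingHom.ker ψ → S.P.Monic →
    Irreducible (S.map ι).P → Irreducible (S.map ψ).P → (S.map ψ).D ≠ 0 →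
    Transcendental ℂ x → ℂ⟮x, y⟯ = ⊤ → aevalAeval x y (S.map ι).P = 0 → g₀ ≤ genus F →
    3 ≤ Module.finrank ℂ⟮z⟯ F →
    Moduli Sg (min (3 * genus F - 3) (2 * genus F + 2 * Module.finrank ℂ⟮z⟯ F - 5) + Sg.card) →
    (∀ p ∉ Sg, ∀ φ, At φ p → (S.map ι).Loc (φ x) (φ y)) →
    (∀ m : Ideal R, m.IsMaximal → (S.map (Ideal.Quotient.mk m)).Fund) → (S.map ψ).Alg := by
  obtain ⟨k, hk⟩ := simple_covers r
  refine ⟨k + 2, fun R _ _ ι ψ S F _ _ x y z Sg h0 hP hI hI' hD hx hxy hy hg hz hG hL hF => ?_⟩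
  have : IsFF F := isFF_of_gen hx hxy hI.ne_zero hy
  obtain ⟨d, f, w, P', n, t, M, hd', hM', hd, hC, hc⟩ := exists_cov (r := 2) Sg hz (by omega) hG
  obtain ⟨h1, h2, c₀, h3, h4⟩ := Pool.Agent.GR.FK.of_cov hC (Finset.card_pos.1 (by omega))
  exact hk R ι ψ S F x y f Sg d c₀ h0 hP hI hI' hD hx hxy hy (by omega) (hM'.deg.symm.trans hd) hd'
    h1 h2 h3 h4 hL hF

end Pool.Agent.Results.MP_aa40d3_nt.FreeBranch
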