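import Pool.Agent.Lib.MP_aa40d3_nt.OC.All
import Pool.Agent.Lib.MP_aa40d3_nt.OC.LineD
import Pool.Agent.Lib.MP_aa40d3_nt.OC.SlF

open Polynomial Pool.Agent.GR.CV Pool.Agent.GR.GE Pool.Agent.GR.OC
open Pool.Agent.GR.RC (Free)
open Pool.Agent.Lib.MP_a01f70_lc.QQ (Place)
open scoped IntermediateField

namespace Pool.Agent.Results.MP_aa40d3_nt.OnePointAnyCurve

/-- The Grothendieck-Katz conjecture, from nilpotent curvature in positive characteristic, for
irreducible systems of rank `r` on an ARBITRARY curve with punctures `Σ` that are gauge equivalent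
to a connection with values in an irreducible simple Lie algebra `g` (up to scalars), with
irreducible adjoint system. The local monodromy has two eigenvalues at the punctures in `M`, at
least two of them, `2 genus + |M| ≥ k(r)`, and ONE of them, `p₀`, is free. The curve, the other
punctures and the singularities there are arbitrary. In positive genus the determinant has finite
order. The reductions are only required to be triangular at the maximal ideals of `ι R` outside a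
hypersurface `f = 0` (for an integer `f`, at almost all primes). All solutions on all branches are
algebraic, for the system itself (`ψ = ι`) and for every specialisation `ψ` of it, also when the
curve becomes reducible or `ψ f = 0`. -/
theorem result (r : ℕ) : ∃ k : ℕ, ∀ (R : Type) [CommRing R] [Algebra.FiniteType ℤ R]
    (ι ψ : R →+* ℂ) (S : Sys R r) (f : R) (F : Type) [Field F] [Algebra ℂ F] (x y : F)
    (Sg M : Finset (Place ℂ F)) (p₀ : Place ℂ F) (g : Submodule ℂ (Matrix (Fin r) (Fin r) ℂ)),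
    RingHom.ker ι ≤ RingHom.ker ψ → S.P.Monic → Irreducible (S.map ι).P → Transcendental ℂ x →
    ℂ⟮x, y⟯ = ⊤ → aevalAeval x y (S.map ι).P = 0 → p₀ ∈ M → M ⊆ Sg → 2 ≤ M.card →
    k ≤ 2 * genus F + M.card → Free Sg p₀ →
    (∀ p ∈ M, ∀ φ, At φ p → TwoL (S.map ι) (φ x) (φ y)) →
    (∀ p ∉ Sg, ∀ φ, At φ p → (S.map ι).Loc (φ x) (φ y)) → IrrO (S.map ι) x y → SimL g →
    LieO (S.map ι) x y g → (genus F = 0 ∨ DetO (S.map ι) x y) → ι f ≠ 0 →
    (∀ m : Ideal R, m.IsMaximal → RingHom.ker ι ≤ m → f ∉ m →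
      (S.map (Ideal.Quotient.mk m)).Tri) → (S.map ψ).AlgAll :=
  finalE r

/-- On an irreducible fibre there is a fundamental matrix of algebraic functions on a disc. -/
theorem disc (r : ℕ) : ∃ k : ℕ, ∀ (R : Type) [CommRing R] [Algebra.FiniteType ℤ R]
    (ι ψ : R →+* ℂ) (S : Sys R r) (F : Type) [Field F] [Algebra ℂ F] (x y : F)
    (Sg M : Finset (Place ℂ F)) (p₀ : Place ℂ F) (g : Submodule ℂ (Matrix (Fin r) (Fin r) ℂ)),
    RingHom.ker ι ≤ RingHom.ker ψ → S.P.Monic →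
    Irreducible (S.map ι).P → Irreducible (S.map ψ).P → (S.map ψ).D ≠ 0 → Transcendental ℂ x →
    ℂ⟮x, y⟯ = ⊤ → aevalAeval x y (S.map ι).P = 0 → p₀ ∈ M → M ⊆ Sg → 2 ≤ M.card →
    k ≤ 2 * genus F + M.card → Free Sg p₀ →
    (∀ p ∈ M, ∀ φ, At φ p → TwoL (S.map ι) (φ x) (φ y)) →
    (∀ p ∉ Sg, ∀ φ, At φ p → (S.map ι).Loc (φ x) (φ y)) → IrrO (S.map ι) x y → SimL g →
    LieO (S.map ι) x y g → (genus F = 0 ∨ DetO (S.map ι) x y) →
    (∀ m : Ideal R, m.IsMaximal → (S.map (Ideal.Quotient.mk m)).Tri) → (S.map ψ).Alg :=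
  (result r).imp fun _ hk R _ _ ι ψ S F _ _ x y Sg M p₀ g h0 hP hI hI' hD hx hxy hy h1 h2 h3 h4 h5
    h6 hL hA hS hO hDe hF => Pool.Agent.GR.SP.alg_of_all (hk R ι ψ S 1 F x y Sg M p₀ g h0 hP hI hx
      hxy hy h1 h2 h3 h4 h5 h6 hL hA hS hO hDe (by rw [map_one]; exact one_ne_zero)
      fun m hm _ _ => hF m hm) (hP.map _) hI' hD

/-- The case of all traceless matrices: systems with irreducible traceless endomorphisms. -/
theorem adjoint (r : ℕ) : ∃ k : ℕ, ∀ (R : Type) [CommRing R] [Algebra.FiniteType ℤ R]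
    (ι ψ : R →+* ℂ) (S : Sys R r) (f : R) (F : Type) [Field F] [Algebra ℂ F] (x y : F)
    (Sg M : Finset (Place ℂ F)) (p₀ : Place ℂ F),
    RingHom.ker ι ≤ RingHom.ker ψ → S.P.Monic → Irreducible (S.map ι).P → Transcendental ℂ x →
    ℂ⟮x, y⟯ = ⊤ → aevalAeval x y (S.map ι).P = 0 → p₀ ∈ M → M ⊆ Sg → 2 ≤ M.card →
    k ≤ 2 * genus F + M.card → Free Sg p₀ →
    (∀ p ∈ M, ∀ φ, At φ p → TwoL (S.map ι) (φ x) (φ y)) →
    (∀ p ∉ Sg, ∀ φ, At φ p → (S.map ι).Loc (φ x) (φ y)) → AdF (S.map ι) x y →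
    (genus F = 0 ∨ DetO (S.map ι) x y) → ι f ≠ 0 →
    (∀ m : Ideal R, m.IsMaximal → RingHom.ker ι ≤ m → f ∉ m →
      (S.map (Ideal.Quotient.mk m)).Tri) → (S.map ψ).AlgAll :=
  (result r).imp fun _ hk R _ _ ι ψ S f F _ _ x y Sg M p₀ h0 hP hI hx hxy hy h1 h2 h3 h4 h5 h6 hL
    hA hDe hf hF w u z hD => hk R ι ψ S f F x y Sg M p₀ _ h0 hP hI hx hxy hy h1 h2 h3 h4 h5 h6 hL
      (hA.irrO fun e => hx ⟨_, Pool.Agent.GR.FB.d_ne h0 fun e' => hD (by rw [e', eval_zero]), e⟩)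
      simL_sl hA.lieO hDe hf hF w u z hD

open Pool.Agent.GR Pool.Agent.GR.OP Pool.Agent.GR.OG in
/-- The case of Fuchsian systems on the line with residues in `g`. -/
theorem line (r : ℕ) : ∃ k : ℕ, ∀ (n : ℕ) (R : Type) [CommRing R]
    [Algebra.FiniteType ℤ R] (ι : R →+* ℂ), Function.Injective ι → ∀ (t : Fin n → R)
    (A : Fin n → Matrix (Fin r) (Fin r) R) (o : Fin n) (S : Finset (Fin n)) (P₀ : ℕ),
    Function.Injective t →
    Transcendental (IntermediateField.adjoin ℚ {x : ℂ | ∃ j, j ≠ o ∧ x = ι (t j)}) (ι (t o)) →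
    Irred (fun i => ι (t i)) (fun i => (A i).map ι) →
    ∀ g, LieSys (fun i => ι (t i)) (fun i => (A i).map ι) g → Two ((A o).map ι) → k ≤ S.card →
    (∀ j ∈ S, Two ((A j).map ι)) →
    (∀ p : ℕ, p.Prime → P₀ < p → ∀ m : Ideal R, m.IsMaximal → (p : R) ∈ m →
      NilCurv p (fun i => Ideal.Quotient.mk m (t i)) fun i => (A i).map (Ideal.Quotient.mk m)) →
    ∀ φ : R →+* ℂ, AlgSol (fun i => φ (t i)) fun i => (A i).map φ :=
  (disc r).elim fun k hk => ⟨k + 2, lineG_of hk⟩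

end Pool.Agent.Results.MP_aa40d3_nt.OnePointAnyCurve
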