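import Pool.Agent.Lib.MP_aa40d3_nt.RC.All

open Polynomial Pool.Agent.GR.CV Pool.Agent.GR.GE Pool.Agent.GR.RC
open Pool.Agent.Lib.MP_a01f70_lc.QQ (Place)
open scoped IntermediateField

namespace Pool.Agent.Results.MP_aa40d3_nt.RankTwoAnyCurve

/-- The Grothendieck-Katz conjecture for primitive systems of rank two on a curve with punctures
`Σ`, when ONE puncture `p₀`, with an exponent difference that is not an integer, is free: the value
at `p₀` of some function is transcendental over the field generated by the branch values of the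
function and its values at the other punctures. The curve, the number of the other punctures, their
position and the singularities there are arbitrary. In positive genus the determinant has finite
order and there is a second puncture with an exponent difference that is not an integer. The
reductions are only required to have a fundamental matrix at the maximal ideals of `ι R` outside a
hypersurface `f = 0` (for an integer `f`, at almost all primes). All solutions on all branches are
algebraic, for the system itself (`ψ = ι`) and for every specialisation `ψ` of it, also when the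
curve becomes reducible or `ψ f = 0`. -/
theorem result (R : Type) [CommRing R] [Algebra.FiniteType ℤ R] (ι ψ : R →+* ℂ) (S : Sys R 2)
    (f : R) (F : Type) [Field F] [Algebra ℂ F] (x y : F) (Sg : Finset (Place ℂ F)) (p₀ : Place ℂ F)
    (h0 : RingHom.ker ι ≤ RingHom.ker ψ) (hP : S.P.Monic) (hI : Irreducible (S.map ι).P)
    (hx : Transcendental ℂ x) (hxy : ℂ⟮x, y⟯ = ⊤) (hy : aevalAeval x y (S.map ι).P = 0)
    (h1 : p₀ ∈ Sg) (h2 : Free Sg p₀) (h3 : ∀ φ, At φ p₀ → Exp (S.map ι) (φ x) (φ y))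
    (h4 : genus F = 0 ∨ (DetO (S.map ι) x y ∧
      ∃ p₁ ∈ Sg, p₁ ≠ p₀ ∧ ∀ φ, At φ p₁ → Exp (S.map ι) (φ x) (φ y)))
    (hL : ∀ p ∉ Sg, ∀ φ, At φ p → (S.map ι).Loc (φ x) (φ y)) (hPr : PrimF (S.map ι) x y)
    (hf : ι f ≠ 0) (hF : ∀ m : Ideal R, m.IsMaximal → RingHom.ker ι ≤ m → f ∉ m →
      (S.map (Ideal.Quotient.mk m)).Fund) : (S.map ψ).AlgAll :=
  final16 R ι ψ S f F x y Sg p₀ h0 hP hI hx hxy hy h1 h2 h3 h4 hL hPr hf hF

/-- On an irreducible fibre there is a fundamental matrix of algebraic functions on a disc. -/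
theorem disc (R : Type) [CommRing R] [Algebra.FiniteType ℤ R] (ι ψ : R →+* ℂ) (S : Sys R 2)
    (F : Type) [Field F] [Algebra ℂ F] (x y : F) (Sg : Finset (Place ℂ F)) (p₀ : Place ℂ F)
    (h0 : RingHom.ker ι ≤ RingHom.ker ψ) (hP : S.P.Monic) (hI : Irreducible (S.map ι).P)
    (hI' : Irreducible (S.map ψ).P) (hD : (S.map ψ).D ≠ 0) (hx : Transcendental ℂ x)
    (hxy : ℂ⟮x, y⟯ = ⊤) (hy : aevalAeval x y (S.map ι).P = 0) (h1 : p₀ ∈ Sg) (h2 : Free Sg p₀)
    (h3 : ∀ φ, At φ p₀ → Exp (S.map ι) (φ x) (φ y))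
    (h4 : genus F = 0 ∨ (DetO (S.map ι) x y ∧
      ∃ p₁ ∈ Sg, p₁ ≠ p₀ ∧ ∀ φ, At φ p₁ → Exp (S.map ι) (φ x) (φ y)))
    (hL : ∀ p ∉ Sg, ∀ φ, At φ p → (S.map ι).Loc (φ x) (φ y)) (hPr : PrimF (S.map ι) x y)
    (hF : ∀ m : Ideal R, m.IsMaximal → (S.map (Ideal.Quotient.mk m)).Fund) : (S.map ψ).Alg :=
  Pool.Agent.GR.SP.alg_of_all (result R ι ψ S 1 F x y Sg p₀ h0 hP hI hx hxy hy h1 h2 h3 h4 hL hPr
    (by rw [map_one]; exact one_ne_zero) fun m hm _ _ => hF m hm) (hP.map _) hI' hD

open Pool.Agent.GR in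
/-- The case of Fuchsian systems on the projective line with one generic singular point. The proof
`cor_line` applies `final15`, the statement of `disc`, with `F = ℂ(x)`, `P = y`, `z = x`. -/
theorem line (n : ℕ) (R : Type) [CommRing R] [Algebra.FiniteType ℤ R] (ι : R →+* ℂ)
    (hι : Function.Injective ι) (t : Fin n → R) (A : Fin n → Matrix (Fin 2) (Fin 2) R) (o : Fin n)
    (ht : Function.Injective t)
    (ho : Transcendental (IntermediateField.adjoin ℚ {x : ℂ | ∃ j, j ≠ o ∧ x = ι (t j)}) (ι (t o)))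
    (he : ∃ lam mu : ℂ, (∀ z : ℤ, mu - lam ≠ z) ∧
      ((A o).map ι).charpoly = (X - C mu) * (X - C lam))
    (hpr : Prim (fun i => ι (t i)) fun i => (A i).map ι)
    (hp : ∀ m : Ideal R, m.IsMaximal →
      HasFund (fun i => Ideal.Quotient.mk m (t i)) fun i => (A i).map (Ideal.Quotient.mk m))
    (φ : R →+* ℂ) : AlgSol (fun i => φ (t i)) fun i => (A i).map φ :=
  cor_line n R ι hι t A o ht ho he hpr hp φ

end Pool.Agent.Results.MP_aa40d3_nt.RankTwoAnyCurve
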